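import Pool.Agent.H690R3.QP.Main

/-! The complement of the 16-vertex graph of `H690R3.QP` is minimally non-strict-quasi-parity. -/

set_option autoImplicit false

namespace Pool.Agent.H51R3.SQP

open SimpleGraph Pool.Agent.H690R3.QP

/-- the set given by a mask is a clique of the complement graph -/
def clq (inn : ℕ) : Bool :=
  verts.all fun u => verts.all fun v => u == v || !(inn.testBit u && inn.testBit v) ||
    (coadj u).testBit v

/-- decision tree over all vertex sets -/
def dec2 (L : List (ℕ × ℕ × List ℕ)) : ℕ → ℕ → ℕ → Bool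
  | 0, inn, out => evenO L inn out || inn == 65535 || clq inn
  | k+1, inn, out => evenO L inn out ||
      (dec2 L k (inn ||| (1 <<< k)) out && dec2 L k inn (out ||| (1 <<< k)))

/-- a listed pair inside the set all of whose masks leave the set -/
def Pr (L : List (ℕ × ℕ × List ℕ)) (S : ℕ) : Prop :=
  ∃ p ∈ L, S.testBit p.1 = true ∧ S.testBit p.2.1 = true ∧
    ∀ x ∈ p.2.2, ∃ w, x.testBit w = true ∧ S.testBit w = false

/-- conclusion of the decision tree -/
def Concl2 (L : List (ℕ × ℕ × List ℕ)) (S : ℕ) : Prop :=
  Pr L S ∨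
  (∀ v : Fin 16, S.testBit v = true) ∨
  (∀ u v : Fin 16, S.testBit u = true → S.testBit v = true → u ≠ v → (coadj u).testBit v = true)

theorem evenO_sound2 (L : List (ℕ × ℕ × List ℕ)) (S inn out : ℕ) (h : evenO L inn out = true)
    (hi : ∀ i, inn.testBit i = true → S.testBit i = true)
    (ho : ∀ i, out.testBit i = true → S.testBit i = false) : Pr L S := by
  rw [evenO, List.any_eq_true] at h
  obtain ⟨p, hp, h⟩ := h
  rw [Bool.and_eq_true, Bool.and_eq_true, List.all_eq_true] at h
  obtain ⟨⟨h1, h2⟩, h3⟩ := h
  refine ⟨p, hp, hi _ h1, hi _ h2, fun x hx => ?_⟩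
  have h4 := h3 x hx
  rw [Bool.not_eq_true', beq_eq_false_iff_ne] at h4
  by_contra hcon
  push Not at hcon
  apply h4
  apply Nat.eq_of_testBit_eq
  intro w
  rw [Nat.testBit_land, Nat.zero_testBit, Bool.and_eq_false_iff]
  by_cases hw : out.testBit w = true
  · left
    by_contra hx'
    rw [Bool.not_eq_false] at hx'
    exact hcon w hx' (ho w hw)
  · right
    rwa [Bool.not_eq_true] at hw

theorem dec2_sound (L : List (ℕ × ℕ × List ℕ)) (S : ℕ) : ∀ k inn out, dec2 L k inn out = true →
    (∀ i, inn.testBit i = true → S.testBit i = true) →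
    (∀ i, out.testBit i = true → S.testBit i = false) →
    (∀ i, k ≤ i → i < 16 → inn.testBit i = true ∨ out.testBit i = true) → Concl2 L S := by
  intro k
  induction k with
  | zero =>
    intro inn out h hi ho hd
    rw [dec2, Bool.or_eq_true, Bool.or_eq_true] at h
    rcases h with (h | h) | h
    · exact Or.inl (evenO_sound2 L S inn out h hi ho)
    · rw [beq_iff_eq] at h
      refine Or.inr (Or.inl fun v => hi _ ?_)
      rw [h]; exact testBit_full v
    · refine Or.inr (Or.inr fun u v hu hv huv => ?_)
      have hin : ∀ w : Fin 16, S.testBit w = true → inn.testBit w = true := by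
        intro w hw
        rcases hd w (Nat.zero_le _) w.2 with h1 | h1
        · exact h1
        · rw [ho _ h1] at hw; exact absurd hw (by decide)
      rw [clq, List.all_eq_true] at h
      have h1 := h u (mem_verts u)
      rw [List.all_eq_true] at h1
      have h2 := h1 v (mem_verts v)
      rw [hin u hu, hin v hv, Bool.or_eq_true, Bool.or_eq_true, beq_iff_eq] at h2
      rcases h2 with (h2 | h2) | h2
      · exact absurd (Fin.ext h2) huv
      · exact absurd h2 (by decide)
      · exact h2
  | succ k ih =>
    intro inn out h hi ho hd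
    rw [dec2, Bool.or_eq_true, Bool.and_eq_true] at h
    rcases h with h | h
    · exact Or.inl (evenO_sound2 L S inn out h hi ho)
    · cases hb : S.testBit k with
      | true =>
        refine ih _ _ h.1 ?_ ho ?_
        · intro i hi'
          rw [Nat.testBit_lor, Bool.or_eq_true, testBit_one_shl] at hi'
          rcases hi' with h1 | h1
          · exact hi i h1
          · rw [← of_decide_eq_true h1]; exact hb
        · intro i hik hi16
          rw [Nat.testBit_lor, Bool.or_eq_true, testBit_one_shl]
          rcases Nat.eq_or_lt_of_le hik with rfl | hik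
          · left; right; exact decide_eq_true rfl
          · rcases hd i hik hi16 with h1 | h1
            · left; left; exact h1
            · right; exact h1
      | false =>
        refine ih _ _ h.2 hi ?_ ?_
        · intro i hi'
          rw [Nat.testBit_lor, Bool.or_eq_true, testBit_one_shl] at hi'
          rcases hi' with h1 | h1
          · exact ho i h1
          · rw [← of_decide_eq_true h1]; exact hb
        · intro i hik hi16
          rw [Nat.testBit_lor, Bool.or_eq_true, testBit_one_shl]
          rcases Nat.eq_or_lt_of_le hik with rfl | hik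
          · right; right; exact decide_eq_true rfl
          · rcases hd i hik hi16 with h1 | h1
            · left; exact h1
            · right; left; exact h1

theorem dec2_true : dec2 pairsC 16 0 0 = true := by decide +kernel

/-- every proper vertex set that is not a clique of the complement has an even pair there -/
theorem proper_even (T : Finset (Fin 16)) (hT : T ≠ Finset.univ)
    (hc : ¬ Gᶜ.IsClique (T : Set (Fin 16))) : ∃ x y, EvenPairIn Gᶜ T x y := by
  set S : ℕ := Nat.ofBits (fun i : Fin 16 => decide (i ∈ T)) with hSdef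
  have hS : ∀ v : Fin 16, S.testBit v = decide (v ∈ T) := by
    intro v
    rw [hSdef, Nat.testBit_ofBits_lt _ _ v.2]
  have hcc : Concl2 pairsC S := by
    refine dec2_sound _ S 16 0 0 dec2_true (fun i hi => ?_) (fun i hi => ?_) (fun i h1 h2 => by omega)
    · rw [Nat.zero_testBit] at hi; exact absurd hi (by decide)
    · rw [Nat.zero_testBit] at hi; exact absurd hi (by decide)
  rcases hcc with ⟨p, hp, ha, hb, hx⟩ | h | h
  · exact even_of_masks Gᶜ coadj Gc_adj pairsC maskC nonadjC T S hS p hp ha hb hx
  · exfalso
    apply hT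
    rw [Finset.eq_univ_iff_forall]
    intro v
    have := hS v
    rw [h v] at this
    exact of_decide_eq_true this.symm
  · exfalso
    apply hc
    intro a ha b hb hab
    rw [Gc_adj]
    exact h a b (by rw [hS]; exact decide_eq_true (Finset.mem_coe.1 ha))
      (by rw [hS]; exact decide_eq_true (Finset.mem_coe.1 hb)) hab

/-- even pair in the sense of embedded paths -/
def EPair {n : ℕ} (K : SimpleGraph (Fin n)) (S : Set (Fin n)) : Prop :=
  ∃ u ∈ S, ∃ v ∈ S, u ≠ v ∧
    ∀ (k : ℕ) (f : SimpleGraph.pathGraph (k + 1) ↪g K),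
      (∀ i, f i ∈ S) → f 0 = u → f (Fin.last k) = v → Even k

/-- an embedded path gives an induced-path function -/
theorem indPath_of_embedding {V : Type} (K : SimpleGraph V) (k : ℕ)
    (f : SimpleGraph.pathGraph (k + 1) ↪g K) :
    IndPath K k (fun i => f (Fin.ofNat (k + 1) i)) := by
  intro i j hi hj
  have ei : ((Fin.ofNat (k + 1) i : Fin (k + 1)) : ℕ) = i := Nat.mod_eq_of_lt (by omega)
  have ej : ((Fin.ofNat (k + 1) j : Fin (k + 1)) : ℕ) = j := Nat.mod_eq_of_lt (by omega)
  refine ⟨?_, fun h => ?_⟩
  · show K.Adj (f _) (f _) ↔ _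
    rw [f.map_adj_iff, pathGraph_adj, ei, ej]
  · have := f.injective h
    rw [← ei, ← ej, this]

/-- walk even pair implies embedded even pair -/
theorem epair_of_evenPairIn (T : Finset (Fin 16)) (x y : Fin 16) (h : EvenPairIn Gᶜ T x y) :
    EPair Gᶜ (T : Set (Fin 16)) := by
  obtain ⟨hx, hy, hxy, -, hp⟩ := h
  refine ⟨x, Finset.mem_coe.2 hx, y, Finset.mem_coe.2 hy, hxy, ?_⟩
  intro k f hf h0 hl
  have hI := indPath_of_embedding Gᶜ k f
  obtain ⟨p, hpl, hpv⟩ := exists_walk Gᶜ (fun i => f (Fin.ofNat (k + 1) i)) k
    (fun i hi => ((hI i (i+1) (by omega) (by omega)).1).2 (Or.inl rfl))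
  have e0 : f (Fin.ofNat (k + 1) 0) = x := by
    rw [← h0]; congr 1
  have e1 : f (Fin.ofNat (k + 1) k) = y := by
    rw [← hl]; congr 1
    exact Fin.ext (Nat.mod_eq_of_lt (by simp))
  have hpath : p.IsPath := by
    rw [← Walk.IsPath.getVert_injOn_iff]
    intro i hi j hj hij
    simp only [Set.mem_ofPred_eq, hpl] at hi hj
    rw [hpv i hi, hpv j hj] at hij
    exact (hI i j hi hj).2 hij
  have hsup : ∀ v ∈ p.support, v ∈ T := by
    intro v hv
    rw [Walk.mem_support_iff_exists_getVert] at hv
    obtain ⟨i, hi, hle⟩ := hv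
    rw [hpl] at hle
    rw [← hi, hpv i hle]
    exact Finset.mem_coe.1 (hf _)
  have hch : ∀ i j : ℕ, i + 1 < j → j ≤ p.length → ¬ Gᶜ.Adj (p.getVert i) (p.getVert j) := by
    intro i j hij hj hadj
    rw [hpl] at hj
    rw [hpv i (by omega), hpv j hj] at hadj
    have := ((hI i j (by omega) hj).1).1 hadj
    omega
  have key := hp (p.copy e0 e1) (by simpa using hpath) (by simpa using hsup) (by
    intro i j hij hj
    rw [Walk.length_copy] at hj
    rw [Walk.getVert_copy, Walk.getVert_copy]
    exact hch i j hij hj)
  rw [Walk.length_copy, hpl] at key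
  exact key

theorem proper_epair (S : Set (Fin 16)) (hS : S ≠ Set.univ) (hc : ¬ Gᶜ.IsClique S) :
    EPair Gᶜ S := by
  classical
  have e : ((S.toFinset : Finset (Fin 16)) : Set (Fin 16)) = S := Set.coe_toFinset S
  obtain ⟨x, y, h⟩ := proper_even S.toFinset (by
    intro h
    apply hS
    rw [← e, h, Finset.coe_univ]) (by rw [e]; exact hc)
  have := epair_of_evenPairIn _ x y h
  rwa [e] at this

/-- the whole vertex set has no even pair -/
theorem not_epair_univ : ¬ EPair Gᶜ Set.univ := by
  rintro ⟨x, -, y, -, hxy, h⟩
  by_cases hadj : (coadj x).testBit y = true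
  · -- path of length one
    have ha : Gᶜ.Adj x y := (Gc_adj x y).2 hadj
    have hadj' := ha
    let f : SimpleGraph.pathGraph (1 + 1) ↪g Gᶜ :=
      { toFun := fun i => if i = 0 then x else y
        inj' := by
          intro i j hij
          fin_cases i <;> fin_cases j
          · rfl
          · exact absurd hij hxy
          · exact absurd hij hxy.symm
          · rfl
        map_rel_iff' := by
          intro i j
          show Gᶜ.Adj (if i = 0 then x else y) (if j = 0 then x else y) ↔ _
          rw [pathGraph_adj]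
          fin_cases i <;> fin_cases j
          · simp
          · simpa using ha
          · simpa using ha.symm
          · simp }
    have := h 1 f (fun _ => Set.mem_univ _) rfl rfl
    exact absurd this (by decide)
  · rw [Bool.not_eq_true] at hadj
    obtain ⟨n, f, hodd, hf, h0, h1⟩ := okPath_sound coadj Gᶜ Gc_adj _ x y (okC x y hxy hadj)
    apply hodd
    refine h n
      { toFun := fun i => f i
        inj' := ?_
        map_rel_iff' := ?_ } (fun _ => Set.mem_univ _) h0 ?_
    · intro i j hij
      exact Fin.ext ((hf i j (by omega) (by omega)).2 hij)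
    · intro i j
      show Gᶜ.Adj (f i) (f j) ↔ _
      rw [pathGraph_adj]
      exact (hf i j (by omega) (by omega)).1
    · show f (Fin.last n : Fin (n+1)) = y
      simpa using h1

theorem not_clique_univ : ¬ Gᶜ.IsClique Set.univ := by
  intro h
  have h1 := h (Set.mem_univ (0 : Fin 16)) (Set.mem_univ (1 : Fin 16)) (by decide)
  rw [Gc_adj] at h1
  revert h1
  decide

/-- a graph embedded with proper image is strict quasi-parity -/
theorem sqp_of_embedding {n : ℕ} (K : SimpleGraph (Fin n)) (e : K ↪g Gᶜ)
    (he : Set.range e ≠ Set.univ) (S : Set (Fin n)) (hS : ¬ K.IsClique S) : EPair K S := by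
  have h1 : e '' S ≠ Set.univ := by
    intro h
    apply he
    rw [Set.eq_univ_iff_forall] at h ⊢
    intro v
    obtain ⟨w, -, hw⟩ := h v
    exact ⟨w, hw⟩
  have h2 : ¬ Gᶜ.IsClique (e '' S) := by
    intro h
    apply hS
    intro a ha b hb hab
    have := h (Set.mem_image_of_mem e ha) (Set.mem_image_of_mem e hb)
      (fun hh => hab (e.injective hh))
    exact e.map_adj_iff.1 this
  obtain ⟨u', ⟨u, hu, rfl⟩, v', ⟨v, hv, rfl⟩, huv, h⟩ := proper_epair _ h1 h2
  refine ⟨u, hu, v, hv, fun hh => huv (by rw [hh]), ?_⟩
  intro k f hf h0 hl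
  refine h k (e.comp f) (fun i => Set.mem_image_of_mem e (hf i)) ?_ ?_
  · show e (f 0) = _
    rw [h0]
  · show e (f (Fin.last k)) = _
    rw [hl]

end Pool.Agent.H51R3.SQP
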